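import Pool.Agent.Lib.MP_c2de4f_an.MAIN

/-! # No conformally natural extension operator in dimension 10 -/

set_option autoImplicit false

noncomputable section

open Metric Set OnePoint
open scoped RealInnerProductSpace

namespace Pool.Agent.Results.MP_c2de4f_an.NoNaturalExtension

/-- Euclidean space `ℝⁿ`. -/
abbrev E (n : ℕ) : Type := EuclideanSpace ℝ (Fin n)

open Classical in
/-- The reflection of `ℝⁿ ∪ {∞}` in the sphere of centre `a` and radius `r` (it exchanges `a` and
`∞`). -/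
def sphereReflection {n : ℕ} (a : E n) (r : ℝ) (z : OnePoint (E n)) : OnePoint (E n) :=
  z.elim (a : OnePoint (E n)) fun x =>
    if x = a then ∞ else ((a + (r ^ 2 / dist x a ^ 2) • (x - a) : E n) : OnePoint (E n))

/-- The reflection of `ℝⁿ ∪ {∞}` in the hyperplane of the `x` with `⟪v, x⟫ = t`, for a unit
vector `v` (it fixes `∞`). -/
def hyperplaneReflection {n : ℕ} (v : E n) (t : ℝ) (z : OnePoint (E n)) : OnePoint (E n) :=
  z.elim ∞ fun x => ((x - (2 * (⟪v, x⟫ - t)) • v : E n) : OnePoint (E n))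

/-- Moebius transformations of `ℝⁿ ∪ {∞}`: finite compositions of reflections in spheres and
hyperplanes. -/
inductive IsMobius {n : ℕ} : (OnePoint (E n) → OnePoint (E n)) → Prop
  | identity : IsMobius id
  | sphere (a : E n) (r : ℝ) (hr : 0 < r) (g : OnePoint (E n) → OnePoint (E n)) :
      IsMobius g → IsMobius (sphereReflection a r ∘ g)
  | hyperplane (v : E n) (t : ℝ) (hv : ‖v‖ = 1) (g : OnePoint (E n) → OnePoint (E n)) :
      IsMobius g → IsMobius (hyperplaneReflection v t ∘ g)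

/-- The open ball `D` of centre `c` and radius `r`. -/
def Ball {n : ℕ} (c : E n) (r : ℝ) : Type := {x : E n // x ∈ ball c r}

/-- Its boundary `∂D`. -/
def Sphere {n : ℕ} (c : E n) (r : ℝ) : Type := {x : E n // x ∈ sphere c r}

instance {n : ℕ} (c : E n) (r : ℝ) : TopologicalSpace (Sphere c r) :=
  TopologicalSpace.induced (fun x => x.1) inferInstance

/-- The distance of two points of the sphere. -/
def gap {n : ℕ} {c : E n} {r : ℝ} (x y : Sphere c r) : ℝ := dist x.1 y.1

/-- The Moebius transformations that map the open ball `D` onto itself, with the maps they induce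
on `D` and on its boundary. -/
structure MobiusOfBall {n : ℕ} (c : E n) (r : ℝ) where
  toFun : OnePoint (E n) → OnePoint (E n)
  isMobius : IsMobius toFun
  onBall : Ball c r → Ball c r
  onSphere : Sphere c r → Sphere c r
  bijective : Function.Bijective onBall
  toFun_ball : ∀ x : Ball c r, toFun (x.1 : OnePoint (E n)) = ((onBall x).1 : OnePoint (E n))
  toFun_sphere : ∀ x : Sphere c r,
    toFun (x.1 : OnePoint (E n)) = ((onSphere x).1 : OnePoint (E n))

/-- Quasiconformality of a homeomorphism `φ : ∂D → ∂D` (metric definition): the ratio of the largest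
and the smallest distance of `φ x` to the images of the points at distance `ρ` from `x` is bounded
by one constant for all `x` and all sufficiently small `ρ`. -/
def IsQuasiconformal {n : ℕ} {c : E n} {r : ℝ} (φ : Sphere c r → Sphere c r) : Prop :=
  ∃ H : ℝ, ∀ x, ∃ δ > (0 : ℝ), ∀ ρ : ℝ, 0 < ρ → ρ < δ → ∀ y z,
    gap y x = ρ → gap z x = ρ → gap (φ y) (φ x) ≤ H * gap (φ z) (φ x)

/-- The quasiconformal homeomorphisms `∂D → ∂D`. -/
structure QCMap {n : ℕ} (c : E n) (r : ℝ) where
  toFun : Sphere c r → Sphere c r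
  isHomeomorph : IsHomeomorph toFun
  quasiconformal : IsQuasiconformal toFun

/-- `F : D → D` is an extension of `φ : ∂D → ∂D`: it extends continuously to the closed ball, with
boundary values `φ`. -/
def IsExtension {n : ℕ} {c : E n} {r : ℝ} (F : Ball c r → Ball c r)
    (φ : Sphere c r → Sphere c r) : Prop :=
  ∃ G : E n → E n, ContinuousOn G (closedBall c r) ∧ (∀ x : Ball c r, G x.1 = (F x).1) ∧
    ∀ x : Sphere c r, G x.1 = (φ x).1

/-- `φ' = g ∘ φ ∘ h` implies `F' = g ∘ F ∘ h`, for all `g, h ∈ Möb(D)`. -/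
def NaturalPair {n : ℕ} {c : E n} {r : ℝ} (φ φ' : Sphere c r → Sphere c r)
    (F F' : Ball c r → Ball c r) : Prop :=
  ∀ g h : MobiusOfBall c r, (∀ x, φ' x = g.onSphere (φ (h.onSphere x))) →
    ∀ x, F' x = g.onBall (F (h.onBall x))

/-- `T` assigns to every quasiconformal `φ : ∂D → ∂D` an extension `T φ : D → D`, and it is
conformally natural: `T (g ∘ φ ∘ h) = g ∘ T φ ∘ h` for all `g, h ∈ Möb(D)`. -/
structure IsNaturalExtensionOperator {n : ℕ} {c : E n} {r : ℝ}
    (T : QCMap c r → Ball c r → Ball c r) : Prop where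
  extension : ∀ φ : QCMap c r, IsExtension (T φ) φ.toFun
  natural : ∀ φ φ' : QCMap c r, NaturalPair φ.toFun φ'.toFun (T φ) (T φ')

open Pool.Agent.Lib.MP_c2de4f_an Pool.Agent.Lib.MP_c2de4f_an.OBS2

/-! ### Moebius transformations -/

theorem IsMobius.comp {n : ℕ} {g h : OnePoint (E n) → OnePoint (E n)} (hg : IsMobius g)
    (hh : IsMobius h) : IsMobius (g ∘ h) := by
  induction hg with
  | identity => exact hh
  | sphere a r hr g _ ih => exact IsMobius.sphere a r hr _ ih
  | hyperplane v t hv g _ ih => exact IsMobius.hyperplane v t hv _ ih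

theorem isMobius_reflection {n : ℕ} (v : E n) :
    IsMobius (OnePoint.map ((ℝ ∙ v)ᗮ.reflection : E n → E n)) := by
  by_cases hv : v = 0
  · have : ((ℝ ∙ v)ᗮ.reflection : E n → E n) = id := by
      funext x
      subst hv
      show (ℝ ∙ (0 : E n))ᗮ.reflection x = x
      apply Submodule.reflection_mem_subspace_eq_self
      rw [Submodule.mem_orthogonal_singleton_iff_inner_right]
      simp
    rw [this, OnePoint.map_id]
    exact IsMobius.identity
  · have hn : ‖v‖ ≠ 0 := norm_ne_zero_iff.2 hv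
    have h := IsMobius.hyperplane (‖v‖⁻¹ • v) 0 (by
      rw [norm_smul, norm_inv, norm_norm, inv_mul_cancel₀ hn]) id IsMobius.identity
    convert h using 1
    funext z
    induction z using OnePoint.rec with
    | infty => rfl
    | coe x =>
      show ((_ : E n) : OnePoint (E n)) = ((_ : E n) : OnePoint (E n))
      congr 1
      rw [Submodule.reflection_orthogonal_apply, Submodule.reflection_singleton_apply]
      rw [real_inner_smul_left, smul_smul]
      simp only [RCLike.ofReal_real_eq_id, id_eq]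
      have : (2 * (‖v‖⁻¹ * ⟪v, x⟫ - 0) * ‖v‖⁻¹) = 2 * (⟪v, x⟫ / ‖v‖ ^ 2) := by
        field_simp
        ring
      rw [this]
      module

theorem isMobius_lin {n : ℕ} (L : E n ≃ₗᵢ[ℝ] E n) : IsMobius (OnePoint.map (L : E n → E n)) := by
  obtain ⟨l, -, rfl⟩ := L.reflections_generate_dim
  induction l with
  | nil =>
    have : ((([] : List (E n)).map fun v => (ℝ ∙ v)ᗮ.reflection).prod : E n → E n) = id := rfl
    rw [this, OnePoint.map_id]
    exact IsMobius.identity
  | cons v l ih =>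
    have : (((v :: l).map fun v => (ℝ ∙ v)ᗮ.reflection).prod : E n → E n) =
      ((ℝ ∙ v)ᗮ.reflection : E n → E n) ∘ ((l.map fun v => (ℝ ∙ v)ᗮ.reflection).prod) := by
      rw [List.map_cons, List.prod_cons]; rfl
    rw [this, OnePoint.map_comp]
    exact (isMobius_reflection v).comp ih


/-- The Moebius translation along `e` is a reflection in a hyperplane followed by one in a sphere
orthogonal to the unit sphere. -/
theorem isMobius_tb {n : ℕ} (e : E n) (he : ‖e‖ = 1) (s : ℝ) :
    ∃ g : OnePoint (E n) → OnePoint (E n), IsMobius g ∧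
      ∀ z : E n, ‖z‖ ≤ 1 → g (z : OnePoint (E n)) = (Tb e s z : E n) := by
  by_cases hs : s = 0
  · subst hs
    exact ⟨id, IsMobius.identity, fun z _ => by rw [Tb_zero]; rfl⟩
  have hsh : Real.sinh s ≠ 0 := by rwa [ne_eq, Real.sinh_eq_zero]
  have hch : 1 < Real.cosh s := Real.one_lt_cosh.2 hs
  have hcs : Real.cosh s ^ 2 - Real.sinh s ^ 2 = 1 := Real.cosh_sq_sub_sinh_sq s
  set q : ℝ := (Real.cosh s + 1) / Real.sinh s with hq
  have hq1 : q ^ 2 - 1 = 2 / (Real.cosh s - 1) := by
    rw [hq, eq_div_iff (by linarith), div_pow, sub_mul, div_mul_eq_mul_div, sub_eq_iff_eq_add,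
      div_eq_iff (by positivity)]
    have : Real.sinh s ^ 2 = (Real.cosh s - 1) * (Real.cosh s + 1) := by linarith
    rw [this]; ring
  have hq0 : 0 < q ^ 2 - 1 := by rw [hq1]; exact div_pos two_pos (by linarith)
  refine ⟨sphereReflection (q • e) (Real.sqrt (q ^ 2 - 1)) ∘ (hyperplaneReflection e 0 ∘ id),
    IsMobius.sphere _ _ (Real.sqrt_pos.2 hq0) _ (IsMobius.hyperplane _ _ he _ IsMobius.identity), ?_⟩
  intro z hz
  have hden := den_pos he s z hz
  set b : ℝ := ⟪e, z⟫ with hb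
  set w : E n := z - (2 * (b - 0)) • e with hw
  have hd : dist w (q • e) ^ 2 = (q ^ 2 - 1) * den e s z := by
    have h1 : w - q • e = z - (2 * b + q) • e := by rw [hw]; module
    rw [dist_eq_norm, h1, norm_sub_sq_real, real_inner_smul_right, real_inner_comm, ← hb,
      norm_smul, he, Real.norm_eq_abs, mul_one, sq_abs, den, ← hb, hq1, hq]
    have h2 : Real.sinh s ^ 2 = (Real.cosh s - 1) * (Real.cosh s + 1) := by linarith
    have h3 : Real.cosh s - 1 ≠ 0 := by linarith
    field_simp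
    linear_combination (-(2 * b * Real.sinh s + (Real.cosh s + 1))) * h2
  have hne : w ≠ q • e := by
    intro h
    rw [h, dist_self] at hd
    have : 0 < (q ^ 2 - 1) * den e s z := mul_pos hq0 hden
    rw [← hd] at this
    norm_num at this
  show sphereReflection (q • e) _ ((w : E n) : OnePoint (E n)) = _
  show (if w = q • e then _ else _) = _
  rw [if_neg hne]
  congr 1
  rw [Real.sq_sqrt hq0.le, hd, Tb, ← hb]
  have h1 : w - q • e = z - (2 * b + q) • e := by rw [hw]; module
  have h4 : (q ^ 2 - 1) / ((q ^ 2 - 1) * den e s z) = (den e s z)⁻¹ := by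
    rw [div_mul_eq_div_div, div_self hq0.ne', one_div]
  rw [h1, h4]
  have h5 : q • e = (den e s z)⁻¹ • ((den e s z * q) • e) := by
    rw [smul_smul, ← mul_assoc, inv_mul_cancel₀ hden.ne', one_mul]
  rw [h5, ← smul_add]
  congr 1
  have h6 : den e s z * q = Real.sinh s * (1 + ‖z‖ ^ 2) / 2 + (Real.cosh s - 1) * b + (2 * b + q) := by
    rw [den, ← hb, hq]
    have h2 : Real.sinh s ^ 2 = (Real.cosh s - 1) * (Real.cosh s + 1) := by linarith
    field_simp
    linear_combination (-(1 + ‖z‖ ^ 2)) * h2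
  rw [h6]
  module


/-! ### Conjugation with a similarity -/

/-- The similarity that maps the unit ball onto `ball c r`. -/
def Sim {n : ℕ} (c : E n) (r : ℝ) (x : E n) : E n := c + r • x

/-- The inverse of `Sim`. -/
def Simi {n : ℕ} (c : E n) (r : ℝ) (x : E n) : E n := r⁻¹ • (x - c)

theorem sim_simi {n : ℕ} (c : E n) {r : ℝ} (hr : 0 < r) (x : E n) : Sim c r (Simi c r x) = x := by
  rw [Sim, Simi, smul_smul, mul_inv_cancel₀ hr.ne', one_smul]
  abel

theorem simi_sim {n : ℕ} (c : E n) {r : ℝ} (hr : 0 < r) (x : E n) : Simi c r (Sim c r x) = x := by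
  rw [Sim, Simi, add_sub_cancel_left, smul_smul, inv_mul_cancel₀ hr.ne', one_smul]

theorem dist_sim {n : ℕ} (c : E n) {r : ℝ} (hr : 0 < r) (x y : E n) :
    dist (Sim c r x) (Sim c r y) = r * dist x y := by
  rw [Sim, Sim, dist_add_left, dist_smul₀, Real.norm_eq_abs, abs_of_pos hr]

theorem dist_simi {n : ℕ} (c : E n) {r : ℝ} (hr : 0 < r) (x y : E n) :
    dist (Simi c r x) (Simi c r y) = r⁻¹ * dist x y := by
  rw [Simi, Simi, dist_smul₀, dist_sub_right, Real.norm_eq_abs, abs_of_pos (inv_pos.2 hr)]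

theorem norm_simi {n : ℕ} (c : E n) {r : ℝ} (hr : 0 < r) (x : E n) :
    ‖Simi c r x‖ = r⁻¹ * dist x c := by
  rw [Simi, norm_smul, dist_eq_norm, Real.norm_eq_abs, abs_of_pos (inv_pos.2 hr)]

theorem dist_sim_c {n : ℕ} (c : E n) {r : ℝ} (hr : 0 < r) (x : E n) :
    dist (Sim c r x) c = r * ‖x‖ := by
  rw [Sim, dist_eq_norm, add_sub_cancel_left, norm_smul, Real.norm_eq_abs, abs_of_pos hr]

/-- Conjugation with the similarity. -/
def conjS {n : ℕ} (c : E n) (r : ℝ) (g : OnePoint (E n) → OnePoint (E n)) :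
    OnePoint (E n) → OnePoint (E n) :=
  OnePoint.map (Sim c r) ∘ g ∘ OnePoint.map (Simi c r)

theorem map_simi_sim {n : ℕ} (c : E n) {r : ℝ} (hr : 0 < r) (z : OnePoint (E n)) :
    OnePoint.map (Simi c r) (OnePoint.map (Sim c r) z) = z := by
  induction z using OnePoint.rec with
  | infty => rfl
  | coe x =>
    show ((Simi c r (Sim c r x) : E n) : OnePoint (E n)) = _
    rw [simi_sim c hr]

theorem map_sim_simi {n : ℕ} (c : E n) {r : ℝ} (hr : 0 < r) (z : OnePoint (E n)) :
    OnePoint.map (Sim c r) (OnePoint.map (Simi c r) z) = z := by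
  induction z using OnePoint.rec with
  | infty => rfl
  | coe x =>
    show ((Sim c r (Simi c r x) : E n) : OnePoint (E n)) = _
    rw [sim_simi c hr]

theorem conjS_comp {n : ℕ} (c : E n) {r : ℝ} (hr : 0 < r) (g h : OnePoint (E n) → OnePoint (E n)) :
    conjS c r (g ∘ h) = conjS c r g ∘ conjS c r h := by
  funext z
  show _ = OnePoint.map (Sim c r) (g (OnePoint.map (Simi c r) (OnePoint.map (Sim c r) _)))
  rw [map_simi_sim c hr]
  rfl

theorem conjS_sphere {n : ℕ} (c : E n) {r : ℝ} (hr : 0 < r) (a : E n) (ρ : ℝ) :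
    conjS c r (sphereReflection a ρ) = sphereReflection (Sim c r a) (r * ρ) := by
  funext z
  induction z using OnePoint.rec with
  | infty => rfl
  | coe x =>
    show OnePoint.map (Sim c r) (if Simi c r x = a then ∞ else _) = if x = Sim c r a then ∞ else _
    by_cases h : x = Sim c r a
    · rw [if_pos h, if_pos (by rw [h, simi_sim c hr])]
      rfl
    · rw [if_neg h, if_neg (fun h' => h (by rw [← h', sim_simi c hr]))]
      show ((Sim c r _ : E n) : OnePoint (E n)) = _
      congr 1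
      have h1 : dist (Simi c r x) a = r⁻¹ * dist x (Sim c r a) := by
        conv_lhs => rw [← simi_sim c hr a]
        exact dist_simi c hr _ _
      have h2 : Simi c r x - a = r⁻¹ • (x - Sim c r a) := by
        have h3 : r⁻¹ • (x - (c + r • a)) = r⁻¹ • (x - c) - (r⁻¹ * r) • a := by module
        rw [Simi, Sim, h3, inv_mul_cancel₀ hr.ne', one_smul]
      have h0 : dist x (Sim c r a) ≠ 0 := dist_ne_zero.2 h
      rw [h1, h2]
      rw [Sim, smul_add, smul_smul, smul_smul, ← add_assoc]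
      show Sim c r a + _ = _
      congr 2
      field_simp

theorem conjS_hyperplane {n : ℕ} (c : E n) {r : ℝ} (hr : 0 < r) (v : E n) (t : ℝ) :
    conjS c r (hyperplaneReflection v t) = hyperplaneReflection v (r * t + ⟪v, c⟫) := by
  funext z
  induction z using OnePoint.rec with
  | infty => rfl
  | coe x =>
    show ((Sim c r (Simi c r x - (2 * (⟪v, Simi c r x⟫ - t)) • v) : E n) : OnePoint (E n)) = _
    show _ = ((x - (2 * (⟪v, x⟫ - (r * t + ⟪v, c⟫))) • v : E n) : OnePoint (E n))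
    congr 1
    have h1 : Sim c r (Simi c r x - (2 * (⟪v, Simi c r x⟫ - t)) • v) =
        Sim c r (Simi c r x) - (r * (2 * (⟪v, Simi c r x⟫ - t))) • v := by
      rw [Sim, Sim]; module
    rw [h1, sim_simi c hr]
    have h2 : r * ⟪v, Simi c r x⟫ = ⟪v, x⟫ - ⟪v, c⟫ := by
      rw [Simi, real_inner_smul_right, inner_sub_right, ← mul_assoc, mul_inv_cancel₀ hr.ne', one_mul]
    congr 2
    linear_combination 2 * h2

theorem IsMobius.conjS {n : ℕ} (c : E n) {r : ℝ} (hr : 0 < r) {g : OnePoint (E n) → OnePoint (E n)}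
    (hg : IsMobius g) : IsMobius (conjS c r g) := by
  induction hg with
  | identity =>
    have : NoNaturalExtension.conjS c r id = (id : OnePoint (E n) → OnePoint (E n)) := by
      funext z
      exact map_sim_simi c hr z
    rw [this]
    exact IsMobius.identity
  | sphere a ρ hρ g _ ih =>
    rw [conjS_comp c hr, conjS_sphere c hr]
    exact IsMobius.sphere _ _ (mul_pos hr hρ) _ ih
  | hyperplane v t hv g _ ih =>
    rw [conjS_comp c hr, conjS_hyperplane c hr]
    exact IsMobius.hyperplane _ _ hv _ ih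


/-! ### The Moebius maps of a ball -/

theorem mem_ball_sim {n : ℕ} (c : E n) {r : ℝ} (hr : 0 < r) {x : E n} :
    Sim c r x ∈ ball c r ↔ ‖x‖ < 1 := by
  rw [mem_ball, dist_sim_c c hr]
  constructor
  · intro h
    by_contra h1
    push Not at h1
    nlinarith
  · intro h
    nlinarith

theorem mem_sphere_sim {n : ℕ} (c : E n) {r : ℝ} (hr : 0 < r) {x : E n} :
    Sim c r x ∈ sphere c r ↔ ‖x‖ = 1 := by
  rw [mem_sphere, dist_sim_c c hr]
  constructor
  · intro h
    exact mul_left_cancel₀ hr.ne' (by rw [h, mul_one])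
  · intro h
    rw [h, mul_one]

theorem mem_ball_simi {n : ℕ} (c : E n) {r : ℝ} (hr : 0 < r) {x : E n} :
    ‖Simi c r x‖ < 1 ↔ x ∈ ball c r := by
  rw [← mem_ball_sim c hr, sim_simi c hr]

theorem mem_sphere_simi {n : ℕ} (c : E n) {r : ℝ} (hr : 0 < r) {x : E n} :
    ‖Simi c r x‖ = 1 ↔ x ∈ sphere c r := by
  rw [← mem_sphere_sim c hr, sim_simi c hr]

/-- A point of the open ball. -/
def Ball.mk {n : ℕ} {c : E n} {r : ℝ} (x : E n) (hx : x ∈ ball c r) : Ball c r := Subtype.mk x hx

/-- A point of the sphere. -/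
def Sphere.mk {n : ℕ} {c : E n} {r : ℝ} (x : E n) (hx : x ∈ sphere c r) : Sphere c r :=
  Subtype.mk x hx

/-- A Moebius transformation of the unit ball gives one of `ball c r`. -/
def mkMob {n : ℕ} (c : E n) {r : ℝ} (hr : 0 < r) (M N : E n → E n)
    (hM : ∀ z, ‖z‖ < 1 → ‖M z‖ < 1) (hN : ∀ z, ‖z‖ < 1 → ‖N z‖ < 1)
    (hMs : ∀ z, ‖z‖ = 1 → ‖M z‖ = 1)
    (hNM : ∀ z, ‖z‖ < 1 → N (M z) = z) (hMN : ∀ z, ‖z‖ < 1 → M (N z) = z)
    (g : OnePoint (E n) → OnePoint (E n)) (hg : IsMobius g)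
    (hgM : ∀ z : E n, ‖z‖ ≤ 1 → g (z : OnePoint (E n)) = (M z : E n)) : MobiusOfBall c r where
  toFun := conjS c r g
  isMobius := hg.conjS c hr
  onBall x := Ball.mk (Sim c r (M (Simi c r x.1)))
    ((mem_ball_sim c hr).2 (hM _ ((mem_ball_simi c hr).2 x.2)))
  onSphere x := Sphere.mk (Sim c r (M (Simi c r x.1)))
    ((mem_sphere_sim c hr).2 (hMs _ ((mem_sphere_simi c hr).2 x.2)))
  bijective := by
    refine Function.bijective_iff_has_inverse.2 ⟨fun x => Ball.mk (Sim c r (N (Simi c r x.1)))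
      ((mem_ball_sim c hr).2 (hN _ ((mem_ball_simi c hr).2 x.2))), ?_, ?_⟩
    · intro x
      apply Subtype.ext
      show Sim c r (N (Simi c r (Sim c r (M (Simi c r x.1))))) = x.1
      rw [simi_sim c hr, hNM _ ((mem_ball_simi c hr).2 x.2), sim_simi c hr]
    · intro x
      apply Subtype.ext
      show Sim c r (M (Simi c r (Sim c r (N (Simi c r x.1))))) = x.1
      rw [simi_sim c hr, hMN _ ((mem_ball_simi c hr).2 x.2), sim_simi c hr]
  toFun_ball x := by
    show OnePoint.map (Sim c r) (g ((Simi c r x.1 : E n) : OnePoint (E n))) = _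
    rw [hgM _ ((mem_ball_simi c hr).2 x.2).le]
    rfl
  toFun_sphere x := by
    show OnePoint.map (Sim c r) (g ((Simi c r x.1 : E n) : OnePoint (E n))) = _
    rw [hgM _ ((mem_sphere_simi c hr).2 x.2).le]
    rfl

theorem cV_isMobius {n : ℕ} {A : Type*} [Group A] (ρ : A →* (E n ≃ₗᵢ[ℝ] E n)) (e : Sph (E n))
    (s : ℝ) (i : Bool) (a : A) : ∃ g : OnePoint (E n) → OnePoint (E n), IsMobius g ∧
      ∀ z : E n, ‖z‖ ≤ 1 → g (z : OnePoint (E n)) = (cV ρ e s i a z : E n) := by
  cases i
  · obtain ⟨g1, h1, h1'⟩ := isMobius_tb (e : E n) (by simp) (2 * s)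
    obtain ⟨g2, h2, h2'⟩ := isMobius_tb (e : E n) (by simp) (-(2 * s))
    refine ⟨g1 ∘ (OnePoint.map (ρ a : E n → E n) ∘ g2), h1.comp ((isMobius_lin (ρ a)).comp h2), ?_⟩
    intro z hz
    show g1 (OnePoint.map (ρ a) (g2 z)) = _
    rw [h2' z hz]
    show g1 ((ρ a (Tb (e : E n) (-(2 * s)) z) : E n) : OnePoint (E n)) = _
    rw [h1' _ (by rw [LinearIsometryEquiv.norm_map]; exact norm_Tb_le (by simp) _ _ hz)]
    rfl
  · exact ⟨_, isMobius_lin (ρ a), fun z _ => rfl⟩

theorem norm_cV_lt {n : ℕ} {A : Type*} [Group A] (ρ : A →* (E n ≃ₗᵢ[ℝ] E n)) (e : Sph (E n))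
    (s : ℝ) (i : Bool) (a : A) (z : E n) (hz : ‖z‖ < 1) : ‖cV ρ e s i a z‖ < 1 := by
  cases i
  · exact norm_Tb_lt (by simp) _ _ (by
      rw [LinearIsometryEquiv.norm_map]
      exact norm_Tb_lt (by simp) _ _ hz)
  · show ‖ρ a z‖ < 1
    rwa [LinearIsometryEquiv.norm_map]

theorem norm_cV_eq {n : ℕ} {A : Type*} [Group A] (ρ : A →* (E n ≃ₗᵢ[ℝ] E n)) (e : Sph (E n))
    (s : ℝ) (i : Bool) (a : A) (z : E n) (hz : ‖z‖ = 1) : ‖cV ρ e s i a z‖ = 1 := by
  cases i
  · exact norm_Tb_eq (by simp) _ _ (by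
      rw [LinearIsometryEquiv.norm_map]
      exact norm_Tb_eq (by simp) _ _ hz)
  · show ‖ρ a z‖ = 1
    rwa [LinearIsometryEquiv.norm_map]

/-- The Moebius transformation of `ball c r` given by the action of `a` in the `i`-th copy. -/
def mob {n : ℕ} {A : Type*} [Group A] (ρ : A →* (E n ≃ₗᵢ[ℝ] E n)) (e : Sph (E n))
    (s : ℝ) (c : E n) {r : ℝ} (hr : 0 < r) (i : Bool) (a : A) : MobiusOfBall c r :=
  mkMob c hr (cV ρ e s i a) (cV ρ e s i a⁻¹) (norm_cV_lt ρ e s i a) (norm_cV_lt ρ e s i a⁻¹)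
    (norm_cV_eq ρ e s i a) (fun z hz => cV_inv ρ e s i a z hz.le)
    (fun z hz => by
      have h := cV_inv ρ e s i a⁻¹ z hz.le
      rwa [inv_inv] at h)
    (cV_isMobius ρ e s i a).choose (cV_isMobius ρ e s i a).choose_spec.1
    (cV_isMobius ρ e s i a).choose_spec.2


/-! ### The exchange homeomorphism in coordinates -/

section transport
variable {V : Type*} [NormedAddCommGroup V] [InnerProductSpace ℝ V]
variable {W : Type*} [NormedAddCommGroup W] [InnerProductSpace ℝ W]

/-- Transport of a representation. -/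
def rhoT (i : V ≃ₗᵢ[ℝ] W) {A : Type*} [Group A] (ρ : A →* (V ≃ₗᵢ[ℝ] V)) : A →* (W ≃ₗᵢ[ℝ] W) where
  toFun a := (i.symm.trans (ρ a)).trans i
  map_one' := by
    ext x
    show i (ρ 1 (i.symm x)) = x
    rw [map_one]
    exact i.apply_symm_apply x
  map_mul' a b := by
    ext x
    show i (ρ (a * b) (i.symm x)) = i (ρ a (i.symm (i (ρ b (i.symm x)))))
    rw [map_mul, i.symm_apply_apply]
    rfl

theorem rhoT_apply (i : V ≃ₗᵢ[ℝ] W) {A : Type*} [Group A] (ρ : A →* (V ≃ₗᵢ[ℝ] V)) (a : A) (x : V) :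
    rhoT i ρ a (i x) = i (ρ a x) := by
  show i (ρ a (i.symm (i x))) = i (ρ a x)
  rw [i.symm_apply_apply]

/-- The isometry of the unit spheres. -/
def iS (i : V ≃ₗᵢ[ℝ] W) : Sph V ≃ₜ Sph W where
  toFun x := ⟨i (x : V), mem_sphere_zero_iff_norm.2
    ((i.norm_map (x : V)).trans (mem_sphere_zero_iff_norm.1 x.2))⟩
  invFun y := ⟨i.symm (y : W), mem_sphere_zero_iff_norm.2
    ((i.symm.norm_map (y : W)).trans (mem_sphere_zero_iff_norm.1 y.2))⟩
  left_inv x := Subtype.ext (i.symm_apply_apply (x : V))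
  right_inv y := Subtype.ext (i.apply_symm_apply (y : W))
  continuous_toFun := (i.continuous.comp continuous_subtype_val).subtype_mk _
  continuous_invFun := (i.symm.continuous.comp continuous_subtype_val).subtype_mk _

theorem dist_iS (i : V ≃ₗᵢ[ℝ] W) (x y : Sph V) : dist (iS i x) (iS i y) = dist x y :=
  i.dist_map _ _

theorem Tb_iso (i : V ≃ₗᵢ[ℝ] W) (e : V) (s : ℝ) (z : V) : Tb (i e) s (i z) = i (Tb e s z) := by
  have hd : den (i e) s (i z) = den e s z := by
    rw [den, den, i.norm_map, i.inner_map_map]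
  rw [Tb, Tb, hd, i.norm_map, i.inner_map_map, _root_.map_smul, map_add, _root_.map_smul]

theorem cact_iS (i : V ≃ₗᵢ[ℝ] W) {A : Type*} [Group A] (ρ : A →* (V ≃ₗᵢ[ℝ] V)) (e : Sph V) (s : ℝ)
    (j : Bool) (a : A) (x : Sph V) :
    cact (rhoT i ρ) (iS i e) s j a (iS i x) = iS i (cact ρ e s j a x) := by
  apply Subtype.ext
  rw [cV_coe]
  show _ = i (cact ρ e s j a x : V)
  rw [cV_coe]
  cases j
  · show Tb (i e) (2 * s) (rhoT i ρ a (Tb (i e) (-(2 * s)) (i x))) =
      i (Tb e (2 * s) (ρ a (Tb e (-(2 * s)) x)))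
    rw [Tb_iso, rhoT_apply, Tb_iso]
  · exact rhoT_apply i ρ a x

end transport

theorem exchange10 : ∃ (ρ : Aff →* (E 10 ≃ₗᵢ[ℝ] E 10)) (e : Sph (E 10)) (s : ℝ)
    (φ : Sph (E 10) ≃ₜ Sph (E 10)), (∀ v : E 10, (∀ a, ρ a v = v) → v = 0) ∧
    (∀ v : E 10, (∀ a ∈ stab ρ e, ρ a v = v) → ∃ t : ℝ, v = t • (e : E 10)) ∧ 0 < s ∧ QC φ ∧
    φ e = -e ∧ ∀ i a x, φ (cact ρ e s i a x) = cact ρ e s i a (φ x) := by
  have hmem : ∀ g : Aff, g ∈ stab (prodRep rhoE rhoU) (eW (U := U4) e7) ↔ g ∈ stab rhoE e7 := by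
    intro g
    rw [mem_stab, mem_stab]
    constructor
    · intro h
      exact congrArg (fun x : W2 E7 U4 => x.fst) h
    · intro h
      apply W2.ext'
      · exact h
      · show rhoU g 0 = 0
        simp
  have hfst : ∀ (x : W2 E7 U4) (g : Aff), prodRep rhoE rhoU g x = x →
      rhoE g x.fst = x.fst ∧ rhoU g x.snd = x.snd := by
    intro x g h
    exact ⟨congrArg (fun x : W2 E7 U4 => x.fst) h, congrArg (fun x : W2 E7 U4 => x.snd) h⟩
  have : FiniteDimensional ℝ (W2 E7 U4) := Module.finite_of_finrank_pos (by rw [finrank_W]; norm_num)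
  obtain ⟨b⟩ := boxes_exist g7 gdata7 v7 vdata7
  obtain ⟨s, hs, φ, hφ, hφe, hc⟩ := exch (eW (U := U4) e7) (prodRep rhoE rhoU)
    (by
      intro g h
      apply rhoE_e7_ne_neg g
      exact congrArg (fun x : W2 E7 U4 => x.fst) h)
    (tc_zero_exists e7 (WithLp.toLp 2 ((1 : ℂ), (0 : ℂ)) : U4) (by
      have h := W2.norm_sq (WithLp.toLp 2 ((1 : ℂ), (0 : ℂ)) : U4)
      have h1 : ‖(WithLp.toLp 2 ((1 : ℂ), (0 : ℂ)) : U4)‖ ^ 2 = 1 := by
        rw [h]; simp
      have h2 := norm_nonneg (WithLp.toLp 2 ((1 : ℂ), (0 : ℂ)) : U4)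
      nlinarith)) b
  have hA : ∀ v : W2 E7 U4, (∀ a, prodRep rhoE rhoU a v = v) → v = 0 := by
    intro x hx
    apply W2.ext'
    · exact fixE_all _ (fun g => (hfst x g (hx g)).1)
    · exact fixU_stab _ (fun g _ => (hfst x g (hx g)).2)
  have hB : ∀ v : W2 E7 U4, (∀ a ∈ stab (prodRep rhoE rhoU) (eW (U := U4) e7),
      prodRep rhoE rhoU a v = v) → ∃ t : ℝ, v = t • ((eW (U := U4) e7 : Sph (W2 E7 U4)) : W2 E7 U4) := by
    intro x hx
    obtain ⟨t, ht⟩ := fixE_stab x.fst (fun g hg => (hfst x g (hx g ((hmem g).2 hg))).1)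
    refine ⟨t, ?_⟩
    apply W2.ext'
    · exact ht
    · have h0 : x.snd = 0 := fixU_stab _ (fun g hg => (hfst x g (hx g ((hmem g).2 hg))).2)
      rw [h0]
      show (0 : U4) = t • (0 : U4)
      simp
  set i : W2 E7 U4 ≃ₗᵢ[ℝ] E 10 :=
    (stdOrthonormalBasis ℝ (W2 E7 U4)).repr.trans
      (LinearIsometryEquiv.piLpCongrLeft 2 ℝ ℝ (finCongr finrank_W)) with hi
  clear_value i
  set ρ := prodRep rhoE rhoU with hρ
  set e := eW (U := U4) e7 with he
  clear_value ρ e
  refine ⟨rhoT i ρ, iS i e, s, ((iS i).symm.trans φ).trans (iS i), ?_, ?_, hs, ?_, ?_, ?_⟩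
  · intro v hv
    have h1 : i.symm v = 0 := by
      apply hA
      intro a
      apply i.injective
      rw [i.apply_symm_apply]
      exact hv a
    rw [← i.apply_symm_apply v, h1, map_zero]
  · intro v hv
    have h1 : ∃ t : ℝ, i.symm v = t • (e : W2 E7 U4) := by
      apply hB
      intro a ha
      apply i.injective
      rw [i.apply_symm_apply]
      apply hv a
      rw [mem_stab] at ha ⊢
      show rhoT i ρ a (i e) = i e
      rw [rhoT_apply, ha]
    obtain ⟨t, ht⟩ := h1
    refine ⟨t, ?_⟩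
    rw [← i.apply_symm_apply v, ht, _root_.map_smul]
    rfl
  · obtain ⟨H, hH⟩ := hφ
    refine ⟨H, fun x => ?_⟩
    obtain ⟨δ, hδ, h⟩ := hH ((iS i).symm x)
    have hds : ∀ y z : Sph (E 10), dist ((iS i).symm y) ((iS i).symm z) = dist y z := by
      intro y z
      rw [← dist_iS i, (iS i).apply_symm_apply, (iS i).apply_symm_apply]
    refine ⟨δ, hδ, fun r hr hrd y z hy hz => ?_⟩
    have h1 := h r hr hrd ((iS i).symm y) ((iS i).symm z) (by rw [hds, hy]) (by rw [hds, hz])
    show dist (iS i (φ ((iS i).symm y))) (iS i (φ ((iS i).symm x))) ≤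
      H * dist (iS i (φ ((iS i).symm z))) (iS i (φ ((iS i).symm x)))
    rw [dist_iS, dist_iS]
    exact h1
  · show iS i (φ ((iS i).symm (iS i e))) = -iS i e
    rw [(iS i).symm_apply_apply, hφe]
    apply Subtype.ext
    exact map_neg i _
  · intro j a x
    obtain ⟨y, rfl⟩ := (iS i).surjective x
    show iS i (φ ((iS i).symm (cact (rhoT i ρ) (iS i e) s j a (iS i y)))) =
      cact (rhoT i ρ) (iS i e) s j a (iS i (φ ((iS i).symm (iS i y))))
    rw [cact_iS, (iS i).symm_apply_apply, (iS i).symm_apply_apply, cact_iS, hc]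


/-! ### The theorem -/

/-- The similarity of the unit sphere and `sphere c r`. -/
def sphereIso {n : ℕ} (c : E n) {r : ℝ} (hr : 0 < r) : Sph (E n) ≃ₜ Sphere c r where
  toFun x := Sphere.mk (Sim c r x) ((mem_sphere_sim c hr).2 (mem_sphere_zero_iff_norm.1 x.2))
  invFun y := ⟨Simi c r y.1, mem_sphere_zero_iff_norm.2 ((mem_sphere_simi c hr).2 y.2)⟩
  left_inv x := Subtype.ext (simi_sim c hr (x : E n))
  right_inv y := Subtype.ext (sim_simi c hr y.1)
  continuous_toFun := by
    refine Continuous.subtype_mk ?_ _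
    exact continuous_const.add (continuous_subtype_val.const_smul r)
  continuous_invFun := by
    refine Continuous.subtype_mk ?_ _
    exact (continuous_subtype_val.sub continuous_const).const_smul r⁻¹

theorem gap_sphereIso {n : ℕ} (c : E n) {r : ℝ} (hr : 0 < r) (x y : Sph (E n)) :
    gap (sphereIso c hr x) (sphereIso c hr y) = r * dist x y :=
  dist_sim c hr _ _

/-- Transport of a homeomorphism of the unit sphere. -/
def toBall {n : ℕ} (c : E n) {r : ℝ} (hr : 0 < r) (φ : Sph (E n) ≃ₜ Sph (E n)) :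
    Sphere c r → Sphere c r :=
  ((sphereIso c hr).symm.trans φ).trans (sphereIso c hr)

theorem toBall_apply {n : ℕ} (c : E n) {r : ℝ} (hr : 0 < r) (φ : Sph (E n) ≃ₜ Sph (E n))
    (x : Sph (E n)) : toBall c hr φ (sphereIso c hr x) = sphereIso c hr (φ x) := by
  show sphereIso c hr (φ ((sphereIso c hr).symm (sphereIso c hr x))) = _
  rw [Homeomorph.symm_apply_apply]

theorem toBall_qc {n : ℕ} (c : E n) {r : ℝ} (hr : 0 < r) (φ : Sph (E n) ≃ₜ Sph (E n))
    (hφ : QC φ) : IsQuasiconformal (toBall c hr φ) := by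
  obtain ⟨H, hH⟩ := hφ
  refine ⟨H, fun x => ?_⟩
  obtain ⟨x, rfl⟩ := (sphereIso c hr).surjective x
  obtain ⟨δ, hδ, h⟩ := hH x
  refine ⟨r * δ, mul_pos hr hδ, fun ρ hρ hρδ y z hy hz => ?_⟩
  obtain ⟨y, rfl⟩ := (sphereIso c hr).surjective y
  obtain ⟨z, rfl⟩ := (sphereIso c hr).surjective z
  rw [gap_sphereIso] at hy hz
  have h1 := h (ρ / r) (div_pos hρ hr) (by rw [div_lt_iff₀ hr]; linarith) y z
    (by rw [eq_div_iff hr.ne']; linarith) (by rw [eq_div_iff hr.ne']; linarith)
  rw [toBall_apply, toBall_apply, toBall_apply, gap_sphereIso, gap_sphereIso]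
  have h2 := mul_le_mul_of_nonneg_left h1 hr.le
  linarith

theorem no_injective_extension {A : Type*} [Group A] {n : ℕ} (ρ : A →* (E n ≃ₗᵢ[ℝ] E n))
    (e : Sph (E n)) (hA : ∀ v : E n, (∀ a, ρ a v = v) → v = 0)
    (hB : ∀ v : E n, (∀ a ∈ stab ρ e, ρ a v = v) → ∃ t : ℝ, v = t • (e : E n))
    (s : ℝ) (hs : 0 < s) (φ : Sph (E n) ≃ₜ Sph (E n)) (hφe : φ e = -e)
    (hc : ∀ i a x, φ (cact ρ e s i a x) = cact ρ e s i a (φ x))
    (c : E n) (r : ℝ) (hr : 0 < r) (F : Ball c r → Ball c r)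
    (hF : IsExtension F (toBall c hr φ))
    (hnat : NaturalPair (toBall c hr φ) (toBall c hr φ) F F) (hinj : Function.Injective F) :
    False := by
  classical
  obtain ⟨G, hG, hGF, hGφ⟩ := hF
  have hmem : ∀ x : E n, x ∈ closedBall (0 : E n) 1 → Sim c r x ∈ closedBall c r := by
    intro x hx
    rw [mem_closedBall, dist_sim_c c hr]
    rw [mem_closedBall_zero_iff] at hx
    nlinarith
  let F0 : E n → E n := fun x => Simi c r (G (Sim c r x))
  have hF0b : ∀ (x : E n) (h : ‖x‖ < 1),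
      F0 x = Simi c r (F (Ball.mk (Sim c r x) ((mem_ball_sim c hr).2 h))).1 := by
    intro x h
    rw [← hGF]
    rfl
  have hF0s : ∀ x : Sph (E n), F0 x = φ x := by
    intro x
    have h1 := hGφ (sphereIso c hr x)
    have h2 : G (Sim c r x) = (toBall c hr φ (sphereIso c hr x)).1 := h1
    show Simi c r (G (Sim c r x)) = _
    rw [h2, toBall_apply]
    exact simi_sim c hr _
  have hF0lt : ∀ x : E n, ‖x‖ < 1 → ‖F0 x‖ < 1 := by
    intro x hx
    rw [hF0b x hx]
    exact (mem_ball_simi c hr).2 (F _).2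
  have hF0le : ∀ x : E n, ‖x‖ ≤ 1 → ‖F0 x‖ ≤ 1 := by
    intro x hx
    rcases hx.lt_or_eq with h | h
    · exact (hF0lt x h).le
    · have h1 := hF0s ⟨x, mem_sphere_zero_iff_norm.2 h⟩
      have h2 : F0 x = (φ ⟨x, mem_sphere_zero_iff_norm.2 h⟩ : E n) := h1
      rw [h2]
      exact (mem_sphere_zero_iff_norm.1 (φ _).2).le
  have key : ∀ (j : Bool) (a : A), ∀ x ∈ ball (0 : E n) 1,
      F0 (cV ρ e s j a x) = cV ρ e s j a (F0 x) := by
    intro j a x hx
    rw [mem_ball_zero_iff] at hx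
    have h1 := hnat (mob ρ e s c hr j a⁻¹) (mob ρ e s c hr j a) (by
      intro y
      obtain ⟨y, rfl⟩ := (sphereIso c hr).surjective y
      have e1 : (mob ρ e s c hr j a).onSphere (sphereIso c hr y) =
          sphereIso c hr (cact ρ e s j a y) := by
        apply Subtype.ext
        show Sim c r (cV ρ e s j a (Simi c r (Sim c r y))) = Sim c r (cact ρ e s j a y : E n)
        rw [simi_sim c hr, cV_coe]
      have e2 : ∀ w : Sph (E n), (mob ρ e s c hr j a⁻¹).onSphere (sphereIso c hr w) =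
          sphereIso c hr (cact ρ e s j a⁻¹ w) := by
        intro w
        apply Subtype.ext
        show Sim c r (cV ρ e s j a⁻¹ (Simi c r (Sim c r w))) = Sim c r (cact ρ e s j a⁻¹ w : E n)
        rw [simi_sim c hr, cV_coe]
      rw [e1, toBall_apply, toBall_apply, e2, hc]
      congr 1
      apply Subtype.ext
      rw [cV_coe, cV_coe, cV_inv ρ e s j a _ (mem_sphere_zero_iff_norm.1 (φ y).2).le])
      (Ball.mk (Sim c r x) ((mem_ball_sim c hr).2 hx))
    have h2 : F0 x = cV ρ e s j a⁻¹ (F0 (cV ρ e s j a x)) := by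
      rw [hF0b x hx, h1, hF0b _ (norm_cV_lt ρ e s j a x hx)]
      show Simi c r (Sim c r (cV ρ e s j a⁻¹ (Simi c r (F ((mob ρ e s c hr j a).onBall
        (Ball.mk (Sim c r x) ((mem_ball_sim c hr).2 hx)))).1))) = _
      rw [simi_sim c hr]
      congr 4
      apply Subtype.ext
      show Sim c r (cV ρ e s j a (Simi c r (Sim c r x))) = Sim c r (cV ρ e s j a x)
      rw [simi_sim c hr]
    have h3 := cV_inv ρ e s j a⁻¹ (F0 (cV ρ e s j a x))
      (hF0le _ (norm_cV_lt ρ e s j a x hx).le)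
    rw [inv_inv, ← h2] at h3
    exact h3.symm
  refine obstr_core ρ e hA hB s hs F0 ?_ ?_ ?_ ?_ (key true) (key false)
  · have h2 : Continuous (Sim c r) := continuous_const.add (continuous_id.const_smul r)
    have h3 : Continuous (Simi c r) := (continuous_id.sub continuous_const).const_smul r⁻¹
    exact h3.comp_continuousOn (hG.comp h2.continuousOn hmem)
  · intro x hx
    rw [mem_ball_zero_iff] at hx ⊢
    exact hF0lt x hx
  · intro x hx y hy hxy
    rw [mem_ball_zero_iff] at hx hy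
    rw [hF0b x hx, hF0b y hy] at hxy
    have h1 := congrArg (Sim c r) hxy
    rw [sim_simi c hr, sim_simi c hr] at h1
    have h2 := congrArg Subtype.val (hinj (Subtype.ext h1))
    have h3 := congrArg (Simi c r) h2
    have h4 : Simi c r (Sim c r x) = Simi c r (Sim c r y) := h3
    rwa [simi_sim c hr, simi_sim c hr] at h4
  · rw [hF0s e, hφe]
    rfl

/-- **There is no conformally natural quasiconformal extension operator in dimension 10.** For
every open ball `D` of `ℝ¹⁰` there is a quasiconformal homeomorphism `φ` of `∂D` such that, (1), no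
injective extension `F : D → D` of `φ` satisfies `F = g ∘ F ∘ h` for all `g, h ∈ Möb(D)` with
`φ = g ∘ φ ∘ h`; hence, (2), for every conformally natural extension operator `T` the map `T φ` is
not injective, in particular it is not a quasiconformal self-map of `D`. -/
theorem result (c : E 10) (r : ℝ) (hr : 0 < r) : ∃ φ : QCMap c r,
    (∀ F : Ball c r → Ball c r, IsExtension F φ.toFun → NaturalPair φ.toFun φ.toFun F F →
      ¬ Function.Injective F) ∧
    ∀ T : QCMap c r → Ball c r → Ball c r, IsNaturalExtensionOperator T →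
      ¬ Function.Injective (T φ) := by
  obtain ⟨ρ, e, s, φ, hA, hB, hs, hφ, hφe, hc⟩ := exchange10
  let Φ : QCMap c r := ⟨toBall c hr φ, Homeomorph.isHomeomorph _, toBall_qc c hr φ hφ⟩
  refine ⟨Φ, ?_, ?_⟩
  · intro F hF hnat hinj
    exact no_injective_extension ρ e hA hB s hs φ hφe hc c r hr F hF hnat hinj
  · intro T hT hinj
    exact no_injective_extension ρ e hA hB s hs φ hφe hc c r hr _ (hT.extension Φ)
      (hT.natural Φ Φ) hinj

end Pool.Agent.Results.MP_c2de4f_an.NoNaturalExtension
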